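import Mathlib

/-!
# Two-generated right alternative rings without a finite normal series of ideals with
associative quotients, in every characteristic

For every commutative ring `Φ` we define a multiplication on the free module `Φ ^ 14`.  Write an
element as `(α, c, d, ξ, u, σ)` with `α, c ∈ Φ` and `d, ξ, u, σ ∈ Φ ^ 3`, put
`lam = ξ + σ - u` and let `K = K(c, d)` be the endomorphism `K v = (c v₂ + d · v, c v₀, c v₁)`
of `Φ ^ 3`.  The product of `(α, c, d, ξ, u, σ)` and `(α', c', d', ξ', u', σ')` is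
`(α α', α c', α d' + u × ξ', α' lam - α lam' + K' u - K u', α (u' - ξ'), α σ' + K ξ')`.
-/

namespace Pool.Agent.Results.MP_16f3b0_al.Neg

/-- The right alternative law `(x, y, y) = 0`. -/
def IsRightAlternative (A : Type) [NonUnitalNonAssocRing A] : Prop :=
  ∀ x y : A, (x * y) * y = x * (y * y)

/-- The right Moufang identity `((x y) z) y = x ((y z) y)`. Together with the right alternative
law this says that the ring is strongly right alternative. -/
def IsRightMoufang (A : Type) [NonUnitalNonAssocRing A] : Prop :=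
  ∀ x y z : A, ((x * y) * z) * y = x * ((y * z) * y)

/-- A finite chain `0 = I 0 ≤ I 1 ≤ ... ≤ I n = A` of two-sided ideals of `A` such that every
quotient ring `I (k+1) / I k` is associative, that is, the associator of any three elements
of `I (k+1)` lies in `I k`. -/
def HasAssociativeSeries (A : Type) [NonUnitalNonAssocRing A] : Prop :=
  ∃ (n : ℕ) (I : Fin (n + 1) → TwoSidedIdeal A), I 0 = ⊥ ∧ I (Fin.last n) = ⊤ ∧
    ∀ k : Fin n, I k.castSucc ≤ I k.succ ∧
      ∀ x y z : A, x ∈ I k.succ → y ∈ I k.succ → z ∈ I k.succ →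
        (x * y) * z - x * (y * z) ∈ I k.castSucc

/-- The underlying module of the example: coordinates `0` to `13` are
`α, c, d₀, d₁, d₂, ξ₀, ξ₁, ξ₂, u₀, u₁, u₂, σ₀, σ₁, σ₂`. -/
def Alg (Φ : Type) : Type := Fin 14 → Φ

variable {Φ : Type} [CommRing Φ]

instance : AddCommGroup (Alg Φ) := inferInstanceAs (AddCommGroup (Fin 14 → Φ))

instance : Mul (Alg Φ) where
  mul x y := ![
    x 0 * y 0,
    x 0 * y 1,
    x 0 * y 2 + (x 9 * y 7 - x 10 * y 6),
    x 0 * y 3 + (x 10 * y 5 - x 8 * y 7),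
    x 0 * y 4 + (x 8 * y 6 - x 9 * y 5),
    y 0 * (x 5 + x 11 - x 8) - x 0 * (y 5 + y 11 - y 8)
      + (y 1 * x 10 + y 2 * x 8 + y 3 * x 9 + y 4 * x 10)
      - (x 1 * y 10 + x 2 * y 8 + x 3 * y 9 + x 4 * y 10),
    y 0 * (x 6 + x 12 - x 9) - x 0 * (y 6 + y 12 - y 9) + y 1 * x 8 - x 1 * y 8,
    y 0 * (x 7 + x 13 - x 10) - x 0 * (y 7 + y 13 - y 10) + y 1 * x 9 - x 1 * y 9,
    x 0 * (y 8 - y 5),
    x 0 * (y 9 - y 6),
    x 0 * (y 10 - y 7),
    x 0 * y 11 + (x 1 * y 7 + x 2 * y 5 + x 3 * y 6 + x 4 * y 7),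
    x 0 * y 12 + x 1 * y 5,
    x 0 * y 13 + x 1 * y 6]

section coord

variable (x y : Alg Φ)

theorem add_c (i : Fin 14) : (x + y) i = x i + y i := rfl
theorem sub_c (i : Fin 14) : (x - y) i = x i - y i := rfl
theorem zero_c (i : Fin 14) : (0 : Alg Φ) i = 0 := rfl
theorem mul_c0 : (x * y) 0 = x 0 * y 0 := rfl
theorem mul_c1 : (x * y) 1 = x 0 * y 1 := rfl
theorem mul_c2 : (x * y) 2 = x 0 * y 2 + (x 9 * y 7 - x 10 * y 6) := rfl
theorem mul_c3 : (x * y) 3 = x 0 * y 3 + (x 10 * y 5 - x 8 * y 7) := rfl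
theorem mul_c4 : (x * y) 4 = x 0 * y 4 + (x 8 * y 6 - x 9 * y 5) := rfl
theorem mul_c5 : (x * y) 5 = y 0 * (x 5 + x 11 - x 8) - x 0 * (y 5 + y 11 - y 8)
      + (y 1 * x 10 + y 2 * x 8 + y 3 * x 9 + y 4 * x 10)
      - (x 1 * y 10 + x 2 * y 8 + x 3 * y 9 + x 4 * y 10) := rfl
theorem mul_c6 : (x * y) 6 =
    y 0 * (x 6 + x 12 - x 9) - x 0 * (y 6 + y 12 - y 9) + y 1 * x 8 - x 1 * y 8 := rfl
theorem mul_c7 : (x * y) 7 =
    y 0 * (x 7 + x 13 - x 10) - x 0 * (y 7 + y 13 - y 10) + y 1 * x 9 - x 1 * y 9 := rfl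
theorem mul_c8 : (x * y) 8 = x 0 * (y 8 - y 5) := rfl
theorem mul_c9 : (x * y) 9 = x 0 * (y 9 - y 6) := rfl
theorem mul_c10 : (x * y) 10 = x 0 * (y 10 - y 7) := rfl
theorem mul_c11 : (x * y) 11 =
    x 0 * y 11 + (x 1 * y 7 + x 2 * y 5 + x 3 * y 6 + x 4 * y 7) := rfl
theorem mul_c12 : (x * y) 12 = x 0 * y 12 + x 1 * y 5 := rfl
theorem mul_c13 : (x * y) 13 = x 0 * y 13 + x 1 * y 6 := rfl

end coord

omit [CommRing Φ] in
/-- Extensionality, with the fourteen coordinates spelled out. -/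
theorem ext14 {x y : Alg Φ} (h0 : x 0 = y 0) (h1 : x 1 = y 1) (h2 : x 2 = y 2)
    (h3 : x 3 = y 3) (h4 : x 4 = y 4) (h5 : x 5 = y 5) (h6 : x 6 = y 6) (h7 : x 7 = y 7)
    (h8 : x 8 = y 8) (h9 : x 9 = y 9) (h10 : x 10 = y 10) (h11 : x 11 = y 11)
    (h12 : x 12 = y 12) (h13 : x 13 = y 13) : x = y := by
  funext i
  fin_cases i <;> assumption

instance : NonUnitalNonAssocRing (Alg Φ) :=
  { (inferInstance : AddCommGroup (Alg Φ)), (inferInstance : Mul (Alg Φ)) with
    left_distrib := by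
      intro a b c
      apply ext14 <;> simp only [add_c, mul_c0, mul_c1, mul_c2, mul_c3, mul_c4, mul_c5,
        mul_c6, mul_c7, mul_c8, mul_c9, mul_c10, mul_c11, mul_c12, mul_c13] <;> ring
    right_distrib := by
      intro a b c
      apply ext14 <;> simp only [add_c, mul_c0, mul_c1, mul_c2, mul_c3, mul_c4, mul_c5,
        mul_c6, mul_c7, mul_c8, mul_c9, mul_c10, mul_c11, mul_c12, mul_c13] <;> ring
    zero_mul := by
      intro a
      apply ext14 <;> simp only [zero_c, mul_c0, mul_c1, mul_c2, mul_c3, mul_c4, mul_c5,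
        mul_c6, mul_c7, mul_c8, mul_c9, mul_c10, mul_c11, mul_c12, mul_c13] <;> ring
    mul_zero := by
      intro a
      apply ext14 <;> simp only [zero_c, mul_c0, mul_c1, mul_c2, mul_c3, mul_c4, mul_c5,
        mul_c6, mul_c7, mul_c8, mul_c9, mul_c10, mul_c11, mul_c12, mul_c13] <;> ring }

theorem isRightAlternative : IsRightAlternative (Alg Φ) := by
  intro x y
  apply ext14 <;> simp only [mul_c0, mul_c1, mul_c2, mul_c3, mul_c4, mul_c5,
        mul_c6, mul_c7, mul_c8, mul_c9, mul_c10, mul_c11, mul_c12, mul_c13] <;> ring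

theorem isRightMoufang : IsRightMoufang (Alg Φ) := by
  intro x y z
  apply ext14 <;> simp only [mul_c0, mul_c1, mul_c2, mul_c3, mul_c4, mul_c5,
        mul_c6, mul_c7, mul_c8, mul_c9, mul_c10, mul_c11, mul_c12, mul_c13] <;> ring

section elements

/-- The idempotent `e = (α = 1)`. -/
def e : Alg Φ := ![1, 0, 0, 0, 0, 0, 0, 0, 0, 0, 0, 0, 0, 0]
/-- The element `s = (c = 1)`. -/
def s : Alg Φ := ![0, 1, 0, 0, 0, 0, 0, 0, 0, 0, 0, 0, 0, 0]
/-- The element with `ξ = u = (1, 0, 0)`. -/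
def X0 : Alg Φ := ![0, 0, 0, 0, 0, 1, 0, 0, 1, 0, 0, 0, 0, 0]
/-- The element with `ξ = u = (0, 1, 0)`. -/
def X1 : Alg Φ := ![0, 0, 0, 0, 0, 0, 1, 0, 0, 1, 0, 0, 0, 0]
/-- The element with `ξ = u = (0, 0, 1)`. -/
def X2 : Alg Φ := ![0, 0, 0, 0, 0, 0, 0, 1, 0, 0, 1, 0, 0, 0]

theorem neg_c (x : Alg Φ) (i : Fin 14) : (-x) i = -x i := rfl

theorem zsmul_c (m : ℤ) (x : Alg Φ) (i : Fin 14) : (m • x) i = (m : Φ) * x i := by
  have h : (m • x) i = m • x i := rfl
  rw [h, zsmul_eq_mul]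

theorem e_mul_b : (e : Alg Φ) * (s + X0) = s := by
  apply ext14 <;> (simp only [add_c, mul_c0, mul_c1, mul_c2, mul_c3, mul_c4, mul_c5,
        mul_c6, mul_c7, mul_c8, mul_c9, mul_c10, mul_c11, mul_c12, mul_c13]; simp [e, s, X0])

/-- `X1` is obtained from `X0` by multiplications by `e` and `s`. -/
theorem X1_eq : (X1 : Alg Φ) = e * (s * X0) - s * X0 := by
  apply ext14 <;> (simp only [sub_c, mul_c0, mul_c1, mul_c2, mul_c3, mul_c4, mul_c5,
        mul_c6, mul_c7, mul_c8, mul_c9, mul_c10, mul_c11, mul_c12, mul_c13]; simp [e, s, X0, X1])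

/-- `X2` is obtained from `X1` by multiplications by `e` and `s`. -/
theorem X2_eq : (X2 : Alg Φ) = e * (s * X1) - s * X1 := by
  apply ext14 <;> (simp only [sub_c, mul_c0, mul_c1, mul_c2, mul_c3, mul_c4, mul_c5,
        mul_c6, mul_c7, mul_c8, mul_c9, mul_c10, mul_c11, mul_c12, mul_c13]; simp [e, s, X1, X2])

/-- `X0` is recovered from the associator `(X1, X2, X0)` by multiplications by `e`. -/
theorem X0_eq : (X0 : Alg Φ) = e * ((X1 * X2) * X0 - X1 * (X2 * X0)) -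
    e * (e * ((X1 * X2) * X0 - X1 * (X2 * X0))) := by
  apply ext14 <;> (simp only [sub_c, mul_c0, mul_c1, mul_c2, mul_c3, mul_c4, mul_c5,
        mul_c6, mul_c7, mul_c8, mul_c9, mul_c10, mul_c11, mul_c12, mul_c13]; simp [e, X0, X1, X2])

/-- Every element is a combination of fourteen products. -/
theorem expand (t : Fin 14 → ℤ) (x : Alg Φ) (h : ∀ i, x i = (t i : Φ)) :
    x = t 0 • e + t 1 • s
      + (t 2 • (X1 * X2) + t 3 • (X2 * X0) + t 4 • (X0 * X1))
      + (t 5 • X0 + t 6 • X1 + t 7 • X2)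
      + ((t 5 + t 11 - t 8) • (X2 * s - X0) + (t 6 + t 12 - t 9) • (X0 * s - X1)
        + (t 7 + t 13 - t 10) • (X1 * s - X2))
      + (t 11 • (e * (s * X2)) + t 12 • (e * (s * X0)) + t 13 • (e * (s * X1))) := by
  apply ext14 <;> (simp only [h, zsmul_c, add_c, sub_c, mul_c0, mul_c1, mul_c2, mul_c3, mul_c4, mul_c5,
        mul_c6, mul_c7, mul_c8, mul_c9, mul_c10, mul_c11, mul_c12, mul_c13]; simp [e, s, X0, X1, X2])
  all_goals ring

end elements

/-- The ring is generated by `e` and `s + X0`. -/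
theorem closure_eq_top (n : ℕ) :
    NonUnitalSubring.closure ({e, s + X0} : Set (Alg (ZMod n))) = ⊤ := by
  rw [eq_top_iff]
  intro x _
  set C := NonUnitalSubring.closure ({e, s + X0} : Set (Alg (ZMod n)))
  have he : (e : Alg (ZMod n)) ∈ C := NonUnitalSubring.subset_closure (by simp)
  have hb : (s + X0 : Alg (ZMod n)) ∈ C := NonUnitalSubring.subset_closure (by simp)
  have hs : (s : Alg (ZMod n)) ∈ C := by
    rw [← e_mul_b]; exact mul_mem he hb
  have h0 : (X0 : Alg (ZMod n)) ∈ C := by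
    have := sub_mem hb hs
    rwa [add_sub_cancel_left] at this
  have h1 : (X1 : Alg (ZMod n)) ∈ C := by
    rw [X1_eq]; exact sub_mem (mul_mem he (mul_mem hs h0)) (mul_mem hs h0)
  have h2 : (X2 : Alg (ZMod n)) ∈ C := by
    rw [X2_eq]; exact sub_mem (mul_mem he (mul_mem hs h1)) (mul_mem hs h1)
  rw [expand (fun i => ((x i : ZMod n).cast : ℤ)) x
    (fun i => (ZMod.intCast_zmod_cast _).symm)]
  have Z : ∀ (m : ℤ) {y : Alg (ZMod n)}, y ∈ C → m • y ∈ C := fun m _ hy => zsmul_mem hy m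
  refine add_mem (add_mem (add_mem (add_mem (add_mem (Z _ he) (Z _ hs)) ?_) ?_) ?_) ?_
  · exact add_mem (add_mem (Z _ (mul_mem h1 h2)) (Z _ (mul_mem h2 h0))) (Z _ (mul_mem h0 h1))
  · exact add_mem (add_mem (Z _ h0) (Z _ h1)) (Z _ h2)
  · exact add_mem (add_mem (Z _ (sub_mem (mul_mem h2 hs) h0))
      (Z _ (sub_mem (mul_mem h0 hs) h1))) (Z _ (sub_mem (mul_mem h1 hs) h2))
  · exact add_mem (add_mem (Z _ (mul_mem he (mul_mem hs h2)))
      (Z _ (mul_mem he (mul_mem hs h0)))) (Z _ (mul_mem he (mul_mem hs h1)))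

/-- An ideal which contains all associators of an ideal containing `X0`, contains `X0`. -/
theorem descend (I J : TwoSidedIdeal (Alg Φ)) (h0 : X0 ∈ I)
    (hJ : ∀ x y z : Alg Φ, x ∈ I → y ∈ I → z ∈ I → (x * y) * z - x * (y * z) ∈ J) :
    X0 ∈ J := by
  have h1 : X1 ∈ I := by
    rw [X1_eq]
    exact I.sub_mem (I.mul_mem_left _ _ (I.mul_mem_left _ _ h0)) (I.mul_mem_left _ _ h0)
  have h2 : X2 ∈ I := by
    rw [X2_eq]
    exact I.sub_mem (I.mul_mem_left _ _ (I.mul_mem_left _ _ h1)) (I.mul_mem_left _ _ h1)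
  have h := hJ X1 X2 X0 h1 h2 h0
  rw [X0_eq]
  exact J.sub_mem (J.mul_mem_left _ _ h) (J.mul_mem_left _ _ (J.mul_mem_left _ _ h))

theorem not_hasAssociativeSeries [Nontrivial Φ] : ¬ HasAssociativeSeries (Alg Φ) := by
  rintro ⟨n, I, h0, hn, hI⟩
  have key : ∀ k : Fin (n + 1), X0 ∈ I k := by
    intro k
    induction k using Fin.reverseInduction with
    | last => rw [hn]; trivial
    | cast k ih => exact descend (I k.succ) (I k.castSucc) ih (hI k).2
  have h := key 0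
  rw [h0, TwoSidedIdeal.mem_bot] at h
  have h5 : (X0 : Alg Φ) 5 = (0 : Alg Φ) 5 := by rw [h]
  exact one_ne_zero h5

/-- For every natural number `n ≠ 1` there is a ring `A` with additive group `(ℤ / n) ^ 14`
(so `ℤ ^ 14` for `n = 0`), which is right alternative, satisfies the right Moufang identity, is
generated as a ring by two elements (one of them idempotent), and has no finite chain
`0 = I 0 ≤ ... ≤ I m = A` of ideals with associative quotients. -/
theorem result (n : ℕ) (hn : n ≠ 1) : ∃ (A : Type) (_ : NonUnitalNonAssocRing A),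
    Nonempty (A ≃+ (Fin 14 → ZMod n)) ∧
    IsRightAlternative A ∧
    IsRightMoufang A ∧
    (∃ a b : A, a * a = a ∧ NonUnitalSubring.closure ({a, b} : Set A) = ⊤) ∧
    ¬ HasAssociativeSeries A := by
  have : Nontrivial (ZMod n) := ZMod.nontrivial_iff.2 hn
  refine ⟨Alg (ZMod n), inferInstance, ⟨AddEquiv.refl _⟩, isRightAlternative, isRightMoufang,
    ⟨e, s + X0, ?_, closure_eq_top n⟩, not_hasAssociativeSeries⟩
  apply ext14 <;> (simp only [mul_c0, mul_c1, mul_c2, mul_c3, mul_c4, mul_c5,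
        mul_c6, mul_c7, mul_c8, mul_c9, mul_c10, mul_c11, mul_c12, mul_c13]; simp [e])

end Pool.Agent.Results.MP_16f3b0_al.Neg
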